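import Pool.Agent.H24.Gt1

set_option autoImplicit false

namespace Pool.Agent.Results.MP_013ca9_lc.Online
open Pool.Agent.H11.PT Pool.Agent.H24.Par Pool.Agent.H24.Gt

theorem result (d : ℕ) (hd : 2 ≤ d) : ∃ p : List (Fin d) → ℚ,
    p [] = 1 ∧ (∀ x, 0 < p x ∧ p x ≤ 1) ∧ (∀ x, p x = ∑ a, p (x ++ [a])) ∧
    (∀ x, Real.log ((q x : ℝ) / p x) ≤ 2 * Real.log (x.length + 2)) ∧
    ∃ A : List ℕ → ℚ, PolyTime bits bits A ∧ ∀ x, A (x.map Fin.val) = p x := by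
  have h : 0 < d := by omega
  obtain ⟨A, h1, h2⟩ := alg h
  refine ⟨qt, qt_nil, fun x => ⟨qt0 x, qt1 h x⟩, qt_step h, fun x => ?_, A, h1.polyTime, h2⟩
  have a : (0 : ℝ) < q x := by exact_mod_cast q0 x
  have b : (0 : ℝ) < qt x := by exact_mod_cast qt0 x
  have c : (q x : ℝ) ≤ ((x.length : ℝ) + 2) ^ 2 * qt x := by exact_mod_cast q_qt h x
  rw [show (2 : ℝ) * Real.log (x.length + 2) = Real.log ((x.length + 2) ^ 2) by simp]
  exact Real.log_le_log (by positivity) ((div_le_iff₀ b).2 c)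

end Pool.Agent.Results.MP_013ca9_lc.Online
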